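import Pool.Agent.H983R2.IM.Fid

/-!
Monotonicity in the inverse temperature of the relaxation time of heat-bath Glauber dynamics for
the ferromagnetic Ising model on complete graphs (Curie-Weiss model), for every size and all
temperatures.
-/

set_option autoImplicit false

namespace Pool.Agent.Results.MP_e532e2_pr.CompleteGraphs

open Pool.Agent.H983R2.IM

/-- Let `0 ≤ β ≤ β'`.  If the Poincare inequality `c Var ≤ Dir` holds at `β'` for the complete graph
on `n` vertices, then it holds at `β`: the spectral gap is nonincreasing and the relaxation time is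
nondecreasing in `β`. -/
theorem result (n : ℕ) (β β' : ℝ) (h0 : 0 ≤ β) (h1 : β ≤ β') (c : ℝ)
    (h : ∀ f : (Fin n → Bool) → ℝ,
      c * VarF (⊤ : SimpleGraph (Fin n)) β' f ≤ DirF (⊤ : SimpleGraph (Fin n)) β' f) :
    ∀ f : (Fin n → Bool) → ℝ,
      c * VarF (⊤ : SimpleGraph (Fin n)) β f ≤ DirF (⊤ : SimpleGraph (Fin n)) β f :=
  main_graph n (⊤ : SimpleGraph (Fin n)) (Or.inr rfl) β β' h0 h1 c h

end Pool.Agent.Results.MP_e532e2_pr.CompleteGraphs
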