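import Pool.Agent.H178R2.PG.Gap

set_option autoImplicit false

namespace Pool.Agent.Results.MP_e532e2_pr.Forests

open Pool.Agent.H178R2.PG

/-- **For every finite forest the relaxation time of the heat bath Glauber dynamics of the
ferromagnetic Ising model (free boundary) is nondecreasing in `β`.** Same statement as the
problem, for acyclic graphs. -/
theorem result :
    ∀ (n : ℕ) (G : SimpleGraph (Fin n)) [DecidableRel G.Adj], G.IsAcyclic →
      ∀ (mu : ℝ → (Fin n → Bool) → ℝ),
      (∀ (t : ℝ) (σ : Fin n → Bool), mu t σ =
        Real.exp (t / 2 * ∑ u : Fin n, ∑ v : Fin n,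
            if G.Adj u v then (if σ u = σ v then (1:ℝ) else -1) else 0) /
        ∑ τ : Fin n → Bool, Real.exp (t / 2 * ∑ u : Fin n, ∑ v : Fin n,
            if G.Adj u v then (if τ u = τ v then (1:ℝ) else -1) else 0)) →
      ∀ (Var Dir : ℝ → ((Fin n → Bool) → ℝ) → ℝ),
      (∀ (t : ℝ) (f : (Fin n → Bool) → ℝ),
        Var t f = ∑ σ : Fin n → Bool, mu t σ * (f σ - ∑ τ : Fin n → Bool, mu t τ * f τ) ^ 2) →
      (∀ (t : ℝ) (f : (Fin n → Bool) → ℝ),
        Dir t f = (1 / 2 : ℝ) * ∑ σ : Fin n → Bool, mu t σ * ∑ v : Fin n, (1 / (n : ℝ)) *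
          ∑ b : Bool, mu t (Function.update σ v b) /
            (mu t (Function.update σ v true) + mu t (Function.update σ v false)) *
            (f σ - f (Function.update σ v b)) ^ 2) →
      ∀ β β' : ℝ, 0 ≤ β → β ≤ β' → ∀ c : ℝ,
        (∀ f : (Fin n → Bool) → ℝ, c * Var β' f ≤ Dir β' f) →
        ∀ f : (Fin n → Bool) → ℝ, c * Var β f ≤ Dir β f := by
  intro n G _ hG mu hmu Var Dir hVar hDir β β' hβ hββ' c hc f
  set J : ℝ → Fin n → Fin n → ℝ := fun t u v => if G.Adj u v then t else 0 with hJdef
  have hW : ∀ (t : ℝ) (σ : Fin n → Bool), Real.exp (t / 2 * ∑ u : Fin n, ∑ v : Fin n,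
      if G.Adj u v then (if σ u = σ v then (1:ℝ) else -1) else 0) = W (J t) σ := by
    intro t σ
    unfold W
    congr 1
    rw [Finset.mul_sum, Finset.sum_div]
    refine Finset.sum_congr rfl fun u _ => ?_
    rw [Finset.mul_sum, Finset.sum_div]
    refine Finset.sum_congr rfl fun v _ => ?_
    simp only [hJdef]
    split_ifs with h1 h2
    · rw [h2]; cases σ v <;> norm_num [sp]
    · have : sp (σ u) * sp (σ v) = -1 := by
        revert h2
        cases σ u <;> cases σ v <;> norm_num [sp]
      rw [mul_assoc, this]; ring
    · ring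
  have hmu' : ∀ t, mu t = nm (W (J t)) := by
    intro t
    funext σ
    rw [hmu, hW]
    unfold nm
    congr 1
    exact Finset.sum_congr rfl fun τ _ => hW t τ
  have hV' : ∀ t f, Var t f = vr (nm (W (J t))) f := by
    intro t f
    rw [hVar, hmu']; rfl
  have hD' : ∀ t f, Dir t f = dr (nm (W (J t))) f := by
    intro t f
    rw [hDir, hmu']
    unfold dr
    rw [Fintype.card_fin, Finset.mul_sum, Finset.mul_sum]
    refine Finset.sum_congr rfl fun σ _ => ?_
    rw [Finset.mul_sum, Finset.mul_sum, Finset.mul_sum]
    refine Finset.sum_congr rfl fun v _ => ?_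
    rw [Fintype.sum_bool]
    cases h : σ v
    · have e : Function.update σ v false = σ := by rw [← h]; simp
      rw [e]
      simp only [Bool.not_false, sub_self]
      rw [add_comm (nm (W (J t)) (Function.update σ v true))]
      ring
    · have e : Function.update σ v true = σ := by rw [← h]; simp
      rw [e]
      simp only [Bool.not_true, sub_self]
      ring
  by_cases hn : Nonempty (Fin n)
  · have hsymm : ∀ t i j, J t i j = J t j i := by
      intro t i j
      simp only [hJdef, G.adj_comm i j]
    have hβ' : 0 ≤ β' := hβ.trans hββ'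
    have key : gp (nm (W (J β'))) ≤ gp (nm (W (J β))) := by
      apply gp_bridges (J β) (J β') (hsymm β) (hsymm β')
      · intro i j; simp only [hJdef]; split_ifs; exacts [hβ, le_rfl]
      · intro i j; simp only [hJdef]; split_ifs; exacts [hββ', le_rfl]
      · intro i j hij
        have hadj : G.Adj i j := by
          by_contra hcon
          simp only [hJdef, hcon, if_false, ne_eq, not_true_eq_false] at hij
        have hbr : G.IsBridge s(i, j) :=
          (SimpleGraph.isAcyclic_iff_forall_edge_isBridge.mp hG) ((SimpleGraph.mem_edgeSet G).mpr hadj)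
        rw [SimpleGraph.isBridge_iff] at hbr
        refine ⟨{x | (G \ SimpleGraph.fromEdgeSet {s(i, j)}).Reachable i x}, ?_, ?_, ?_⟩
        · exact SimpleGraph.Reachable.refl i
        · simp only [Set.mem_setOf_eq]
          first
            | exact hbr.2
            | exact hbr
        · intro u hu v hv huv
          simp only [Set.mem_setOf_eq] at hu hv
          simp only [hJdef]
          split_ifs with had
          · exfalso
            by_cases he : s(u, v) = s(i, j)
            · rw [Sym2.eq_iff] at he
              rcases he with ⟨h1, h2⟩ | ⟨h1, h2⟩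
              · exact huv (by rw [h1, h2])
              · apply hv
                rw [h2]
            · apply hv
              refine hu.trans (SimpleGraph.Adj.reachable ?_)
              rw [SimpleGraph.sdiff_adj]
              refine ⟨had, ?_⟩
              rw [SimpleGraph.fromEdgeSet_adj]
              rintro ⟨h1, _⟩
              exact he h1
          · rfl
    have h1 : c ≤ gp (nm (W (J β'))) := by
      apply le_gp_of_forall (W (J β')) (W_pos _) (W_nega _)
      intro g
      rw [← hV', ← hD']
      exact hc g
    have h2 := forall_of_le_gp (W (J β)) (W_pos _) c (h1.trans key) f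
    rw [hV', hD']
    exact h2
  · have hn0 : n = 0 := by
      by_contra h
      exact hn ⟨⟨0, Nat.pos_of_ne_zero h⟩⟩
    subst hn0
    have h1 := hc f
    rw [hV', hD'] at h1 ⊢
    have e : J β' = J β := by funext i; exact i.elim0
    rw [e] at h1
    exact h1

end Pool.Agent.Results.MP_e532e2_pr.Forests
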